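import Mathlib
import Pool.Agent.H.MP_e733ef_an.C

set_option autoImplicit false

namespace Pool.Agent.Results.MP_e733ef_an.NotAsplund

open Pool.Agent.H.MP_e733ef_an Pool.Agent.H.MP_17c4bf_an

theorem result : ∃ (E : Type) (_ : AddCommGroup E) (_ : Module ℝ E) (_ : TopologicalSpace E),
    IsTopologicalAddGroup E ∧ ContinuousSMul ℝ E ∧ LocallyConvexSpace ℝ E ∧ T2Space E ∧
    BaireSpace E ∧ TopologicalSpace.SeparableSpace (StrongDual ℝ E) ∧ ¬ Asplund E ∧
    ∃ f : E → ℝ, ConvexOn ℝ Set.univ f ∧ Continuous f ∧ ∀ x, ¬ GateauxAt f x := by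
  obtain ⟨E, h1, h2, f, h3, h4, h5⟩ := main
  refine ⟨E, inferInstance, inferInstance, inferInstance, inferInstance, inferInstance,
    inferInstance, inferInstance, h1, h2, fun h => ?_, f, h3, h4, h5⟩
  obtain ⟨G, -, -, h6, h7⟩ := h Set.univ isOpen_univ convex_univ Set.univ_nonempty f h3
    h4.continuousOn
  obtain ⟨x, hx⟩ := closure_nonempty_iff.1 ⟨0, h6 (Set.mem_univ 0)⟩
  exact h5 x (h7 x hx).gateaux

end Pool.Agent.Results.MP_e733ef_an.NotAsplund
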